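import Pool.Agent.helper88.RQ2.Spec

open Set Matroid RadonMin

namespace RadonQ2

theorem VX_image {V : Type} [DecidableEq V] {n : ℕ} (f : Fin n → V) (B : Finset V)
    (h : (B : Set V) = Set.range f) : B = (Finset.univ : Finset (Fin n)).image f := by
  apply Finset.coe_injective
  rw [h]
  simp

theorem VX_inj {V : Type} [DecidableEq V] {n : ℕ} (f : Fin n → V) (B : Finset V)
    (hc : B.card = n) (h : B = (Finset.univ : Finset (Fin n)).image f) :
    Function.Injective f := by
  have h1 : ((Finset.univ : Finset (Fin n)).image f).card = (Finset.univ : Finset (Fin n)).card := by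
    rw [← h, hc, Finset.card_univ, Fintype.card_fin]
  have h2 := Finset.card_image_iff.mp h1
  intro x y hxy
  exact h2 (by simp) (by simp) hxy

theorem VX_grow5 : ∀ t : Finset (Fin 5), t.card = 3 →
    t ∈ ({{0, 1, 2}, {0, 3, 4}} : Finset (Finset (Fin 5))) ∨
      t ∈ (∅ : Finset (Finset (Fin 5))) ∨
      (grow ({{0, 1, 2}, {0, 3, 4}} : Finset (Finset (Fin 5))))^[5] t = Finset.univ := by
  unfold grow
  decide +kernel

theorem VX_grow6 : ∀ t : Finset (Fin 6), t.card = 3 →
    t ∈ ({{0, 1, 2}, {0, 4, 5}, {1, 3, 5}, {2, 3, 4}} : Finset (Finset (Fin 6))) ∨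
      t ∈ (∅ : Finset (Finset (Fin 6))) ∨
      (grow ({{0, 1, 2}, {0, 4, 5}, {1, 3, 5}, {2, 3, 4}} :
        Finset (Finset (Fin 6))))^[6] t = Finset.univ := by
  unfold grow
  decide +kernel

theorem VX_count5 : ({{0, 1, 2}, {0, 3, 4}} : Finset (Finset (Fin 5))).card +
    ((Finset.powersetCard 4 (Finset.univ : Finset (Fin 5))).filter
      (fun u => ∀ t ∈ ({{0, 1, 2}, {0, 3, 4}} : Finset (Finset (Fin 5))), ¬ t ⊆ u)).card = 3 := by
  decide +kernel

theorem VX_count6 :
    ({{0, 1, 2}, {0, 4, 5}, {1, 3, 5}, {2, 3, 4}} : Finset (Finset (Fin 6))).card +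
    ((Finset.powersetCard 4 (Finset.univ : Finset (Fin 6))).filter
      (fun u => ∀ t ∈ ({{0, 1, 2}, {0, 4, 5}, {1, 3, 5}, {2, 3, 4}} :
        Finset (Finset (Fin 6))), ¬ t ⊆ u)).card = 7 := by
  decide +kernel

theorem VX_proof (hVT : VT_stmt) : VX_stmt := by
  intro V _ _ _ X
  refine ⟨?_, ?_⟩
  · rintro ⟨p, a, b, c, d, hcard, hset, h1, h2, hnc⟩
    have hr : (X : Set V) = Set.range ![p, a, b, c, d] := by
      rw [hset]
      ext x
      simp only [Set.mem_insert_iff, Set.mem_singleton_iff, Set.mem_range, Fin.exists_fin_succ]
      simp [eq_comm]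
    have hX := VX_image _ X hr
    have hinj := VX_inj _ X hcard hX
    have key := hVT V 5 ![p, a, b, c, d] hinj {{0, 1, 2}, {0, 3, 4}} ∅
      (by
        intro t ht
        rw [Finset.mem_insert, Finset.mem_singleton] at ht
        rcases ht with rfl | rfl
        · refine ⟨by decide, ?_⟩
          have : ((({0, 1, 2} : Finset (Fin 5)).image ![p, a, b, c, d] : Finset V) : Set V)
              = {p, a, b} := by
            simp [Finset.image_insert]
          rw [this]; exact h1
        · refine ⟨by decide, ?_⟩
          have : ((({0, 3, 4} : Finset (Fin 5)).image ![p, a, b, c, d] : Finset V) : Set V)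
              = {p, c, d} := by
            simp [Finset.image_insert]
          rw [this]; exact h2)
      (by intro t ht; simp at ht)
      (by
        refine ⟨{0, 1, 3}, by decide, ?_⟩
        rcases VX_grow5 {0, 1, 3} (by decide) with h | h | h
        · exact absurd h (by decide)
        · exact absurd h (by decide)
        · exact h)
      (by rw [← hX]; exact hnc)
      VX_grow5
    rw [← hX, VX_count5] at key
    exact key
  · rintro ⟨a, b, c, d, e, f, hcard, hset, h1, h2, h3, h4, hnc⟩
    have hr : (X : Set V) = Set.range ![a, b, c, d, e, f] := by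
      rw [hset]
      ext x
      simp only [Set.mem_insert_iff, Set.mem_singleton_iff, Set.mem_range, Fin.exists_fin_succ]
      simp [eq_comm]
    have hX := VX_image _ X hr
    have hinj := VX_inj _ X hcard hX
    have key := hVT V 6 ![a, b, c, d, e, f] hinj {{0, 1, 2}, {0, 4, 5}, {1, 3, 5}, {2, 3, 4}} ∅
      (by
        intro t ht
        simp only [Finset.mem_insert, Finset.mem_singleton] at ht
        rcases ht with rfl | rfl | rfl | rfl
        · refine ⟨by decide, ?_⟩
          have : ((({0, 1, 2} : Finset (Fin 6)).image ![a, b, c, d, e, f] : Finset V) : Set V)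
              = {a, b, c} := by
            simp [Finset.image_insert]
          rw [this]; exact h1
        · refine ⟨by decide, ?_⟩
          have : ((({0, 4, 5} : Finset (Fin 6)).image ![a, b, c, d, e, f] : Finset V) : Set V)
              = {a, e, f} := by
            simp [Finset.image_insert]
          rw [this]; exact h2
        · refine ⟨by decide, ?_⟩
          have : ((({1, 3, 5} : Finset (Fin 6)).image ![a, b, c, d, e, f] : Finset V) : Set V)
              = {b, d, f} := by
            simp [Finset.image_insert]
          rw [this]; exact h3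
        · refine ⟨by decide, ?_⟩
          have : ((({2, 3, 4} : Finset (Fin 6)).image ![a, b, c, d, e, f] : Finset V) : Set V)
              = {c, d, e} := by
            simp [Finset.image_insert]
          rw [this]; exact h4)
      (by intro t ht; simp at ht)
      (by
        refine ⟨{0, 1, 3}, by decide, ?_⟩
        rcases VX_grow6 {0, 1, 3} (by decide) with h | h | h
        · exact absurd h (by decide)
        · exact absurd h (by decide)
        · exact h)
      (by rw [← hX]; exact hnc)
      VX_grow6
    rw [← hX, VX_count6] at key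
    exact key

end RadonQ2
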